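import Mathlib
import Pool.Agent.N728.SP.Def

/-!
Project SP (helper728), leaf BV (helper478): the large sieve part of the Bombieri-Vinogradov theorem with moduli up to
`X^{1/2} e^{-l/9}`, `X = exp (l^40)`, at scales `l` without exceptional zeros.
-/

set_option autoImplicit false

open Finset Filter Topology

namespace Pool.Agent.N478.SP

open Pool.Agent.N728.SP Pool.Agent.H398R2.BV Pool.Agent.H410R2
open Pool.Agent.Helper112 Pool.Agent.Helper112.TI Pool.Agent.Helper112.TII

/-- powers are small compared with exponentials -/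
theorem ev_exp (K : ℝ) (k : ℕ) (s : ℝ) (hs : 0 < s) :
    ∀ᶠ l : ℝ in atTop, K * l ^ k ≤ Real.exp (s * l) := by
  have h1 := isLittleO_pow_exp_pos_mul_atTop k hs
  have h2 : (0:ℝ) < 1 / (|K| + 1) := by positivity
  filter_upwards [h1.bound h2, eventually_ge_atTop (0:ℝ)] with l hl hl0
  have hlk : 0 ≤ l ^ k := by positivity
  rw [Real.norm_eq_abs, Real.norm_eq_abs, abs_of_nonneg hlk, abs_of_nonneg (Real.exp_pos _).le] at hl
  have h4 : K * l ^ k ≤ (|K| + 1) * l ^ k := by
    apply mul_le_mul_of_nonneg_right _ hlk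
    have := le_abs_self K
    linarith
  refine h4.trans ?_
  calc (|K| + 1) * l ^ k ≤ (|K| + 1) * (1 / (|K| + 1) * Real.exp (s * l)) :=
        mul_le_mul_of_nonneg_left hl (by positivity)
    _ = Real.exp (s * l) := by field_simp

theorem log_XX (l : ℝ) : Real.log (XX l) = l ^ 40 := by
  unfold XX; exact Real.log_exp _

theorem sqrt_XX (l : ℝ) : Real.sqrt (XX l) = Real.exp (l ^ 40 / 2) := by
  unfold XX
  rw [Real.sqrt_eq_iff_mul_self_eq (Real.exp_pos _).le (Real.exp_pos _).le, ← Real.exp_add]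
  congr 1
  ring

/-- `y^(1/l^40) ≤ 3` for `y ≤ X` -/
theorem rpow_small (l y : ℝ) (hl : 1 ≤ l) (hy0 : 0 ≤ y) (hy : y ≤ XX l) : y ^ (1 / l ^ 40) ≤ 3 := by
  have hl0 : 0 < l ^ 40 := by positivity
  calc y ^ (1 / l ^ 40) ≤ (XX l) ^ (1 / l ^ 40) := Real.rpow_le_rpow hy0 hy (by positivity)
    _ = Real.exp 1 := by
        unfold XX
        rw [← Real.exp_mul]
        congr 1
        field_simp
    _ ≤ 3 := by
        have := Real.exp_one_lt_d9
        linarith

theorem one_pow_omega (C η : ℝ) (hC : 1 ≤ C) (hη : 0 < η) (f : ℕ) (hf : 1 ≤ f) :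
    (1:ℝ) ^ f.primeFactors.card ≤ C * (f:ℝ) ^ η := by
  rw [one_pow]
  have h1 : (1:ℝ) ≤ f := by exact_mod_cast hf
  have h2 : (1:ℝ) ≤ (f:ℝ) ^ η := Real.one_le_rpow h1 hη.le
  nlinarith

theorem typeII_tot (l : ℝ) (hl2 : 2 ≤ l) (W : ℕ) (hW1 : 1 ≤ W) (hW : Real.exp (l / 15) ≤ W) (S : Finset ℕ)
    (hS : ∀ f ∈ S, 2 ≤ f ∧ Real.exp (l / 4) ≤ f ∧ (f:ℝ) ≤ Real.exp (l ^ 40 / 2 - l / 9)) :
    ∑ f ∈ S, ((1:ℝ) ^ f.primeFactors.card / (Nat.totient f : ℝ)) *
      ∑ ψ ∈ Prim f, ‖TL (XX l) f ψ (LamII W W)‖ ≤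
      216 * (1 + l ^ 40) ^ 6 * (XX l * Real.exp (-(l / 30))) := by
  have hl : 1 ≤ l := by linarith
  have hL1 : 1 ≤ l ^ 40 := one_le_pow₀ hl
  have hL2 : 2 ≤ l ^ 40 := by
    calc (2:ℝ) ≤ 2 ^ 40 := by norm_num
      _ ≤ l ^ 40 := pow_le_pow_left₀ (by norm_num) hl2 40
  have hX1 : 1 ≤ XX l := by
    unfold XX; exact Real.one_le_exp (by positivity)
  have hX0 : 0 < XX l := by linarith
  have hE0 : 0 ≤ XX l * Real.exp (-(l / 30)) := by positivity
  have hlogX := log_XX l
  have hmaps : ∀ f ∈ S, Nat.log 2 f ∈ range (⌊l ^ 40⌋₊ + 1) := by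
    intro f hf
    obtain ⟨h2, _, h3⟩ := hS f hf
    rw [mem_range, Nat.lt_succ_iff]
    apply Nat.le_floor
    have h4 : ((2:ℝ) ^ (Nat.log 2 f)) ≤ Real.exp (l ^ 40 / 2) := by
      calc ((2:ℝ) ^ (Nat.log 2 f)) ≤ f := by exact_mod_cast Nat.pow_log_le_self 2 (by omega)
        _ ≤ Real.exp (l ^ 40 / 2 - l / 9) := h3
        _ ≤ _ := Real.exp_le_exp.mpr (by linarith)
    have h5 := Real.log_le_log (by positivity) h4
    rw [Real.log_pow, Real.log_exp] at h5
    have h6 : (0.5:ℝ) < Real.log 2 := by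
      have := Real.log_two_gt_d9
      linarith
    have h7 : (0:ℝ) ≤ (Nat.log 2 f : ℝ) := by positivity
    nlinarith
  rw [← sum_fiberwise_of_maps_to hmaps]
  have hblock : ∀ j ∈ range (⌊l ^ 40⌋₊ + 1), ∑ f ∈ S.filter (fun f => Nat.log 2 f = j),
      ((1:ℝ) ^ f.primeFactors.card / (Nat.totient f : ℝ)) *
      ∑ ψ ∈ Prim f, ‖TL (XX l) f ψ (LamII W W)‖ ≤
      216 * (1 + l ^ 40) ^ 5 * (XX l * Real.exp (-(l / 30))) := by
    intro j _
    rcases (S.filter (fun f => Nat.log 2 f = j)).eq_empty_or_nonempty with hemp | ⟨f0, hf0⟩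
    · rw [hemp, sum_empty]
      positivity
    have hsub : S.filter (fun f => Nat.log 2 f = j) ⊆ Icc (2 ^ j) (2 ^ (j + 1)) := by
      intro f hf
      rw [mem_filter] at hf
      obtain ⟨h1, h2⟩ := hf
      obtain ⟨h3, _, _⟩ := hS f h1
      rw [mem_Icc, ← h2]
      exact ⟨Nat.pow_log_le_self 2 (by omega), (Nat.lt_pow_succ_log_self (by norm_num) f).le⟩
    refine (typeII_dyadic 1 1 (XX l) (1 / l ^ 40) le_rfl one_pos (by positivity) hX1 W W hW1 hW1
      (fun f hf => one_pow_omega 1 _ le_rfl (by positivity) f hf) j _ hsub).trans ?_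
    rw [mem_filter] at hf0
    obtain ⟨h1, h2⟩ := hf0
    obtain ⟨h3, h4, h5⟩ := hS f0 h1
    set y : ℝ := 2 ^ (j + 1) with hy
    have hy2j : (2:ℝ) ^ j = y / 2 := by rw [hy, pow_succ]; ring
    have hj1 : (2:ℝ) ^ j ≤ f0 := by
      rw [← h2]; exact_mod_cast Nat.pow_log_le_self 2 (by omega)
    have hj2 : (f0:ℝ) ≤ y := by
      rw [hy, ← h2]; exact_mod_cast (Nat.lt_pow_succ_log_self (by norm_num) f0).le
    have hyl : Real.exp (l / 4) ≤ y := h4.trans hj2
    have hyu : y ≤ 2 * Real.exp (l ^ 40 / 2 - l / 9) := by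
      have : y / 2 ≤ Real.exp (l ^ 40 / 2 - l / 9) := by rw [← hy2j]; exact hj1.trans h5
      linarith
    have hy0 : 1 ≤ y := (Real.one_le_exp (by positivity)).trans hyl
    have hyX : y ≤ XX l := by
      calc y ≤ 2 * Real.exp (l ^ 40 / 2 - l / 9) := hyu
        _ ≤ Real.exp 1 * Real.exp (l ^ 40 / 2 - l / 9) := by
            apply mul_le_mul_of_nonneg_right _ (Real.exp_pos _).le
            have := Real.exp_one_gt_d9
            linarith
        _ = Real.exp (1 + (l ^ 40 / 2 - l / 9)) := by rw [← Real.exp_add]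
        _ ≤ XX l := by
            unfold XX
            apply Real.exp_le_exp.mpr
            linarith
    have hlogy : Real.log y ≤ l ^ 40 := by
      rw [← hlogX]; exact Real.log_le_log (by linarith) hyX
    have hlogy0 : 0 ≤ Real.log y := Real.log_nonneg hy0
    have hη := rpow_small l y hl (by linarith) hyX
    have hη0 : 0 ≤ y ^ (1 / l ^ 40) := by positivity
    have hW0 : (0:ℝ) < W := by exact_mod_cast hW1
    have hsW : Real.sqrt (XX l / W) ≤ Real.exp (l ^ 40 / 2 - l / 30) := by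
      have e1 : XX l / W ≤ (Real.exp (l ^ 40 / 2 - l / 30)) ^ 2 := by
        rw [← Real.exp_nat_mul, div_le_iff₀ hW0]
        calc XX l = Real.exp (((2:ℕ):ℝ) * (l ^ 40 / 2 - l / 30)) * Real.exp (l / 15) := by
              rw [← Real.exp_add]
              unfold XX
              congr 1
              push_cast
              ring
          _ ≤ _ := mul_le_mul_of_nonneg_left hW (Real.exp_pos _).le
      calc Real.sqrt (XX l / W) ≤ Real.sqrt ((Real.exp (l ^ 40 / 2 - l / 30)) ^ 2) :=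
            Real.sqrt_le_sqrt e1
        _ = _ := Real.sqrt_sq (Real.exp_pos _).le
    have hsX := sqrt_XX l
    -- the key inequality
    have k1 : Real.exp (l ^ 40 / 2) / (y / 2) ≤ 2 * Real.exp (l ^ 40 / 2 - l / 30) := by
      rw [div_le_iff₀ (by linarith)]
      calc Real.exp (l ^ 40 / 2) ≤ Real.exp (l ^ 40 / 2 - l / 30) * Real.exp (l / 4) := by
            rw [← Real.exp_add]
            apply Real.exp_le_exp.mpr
            linarith
        _ ≤ Real.exp (l ^ 40 / 2 - l / 30) * y :=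
            mul_le_mul_of_nonneg_left hyl (Real.exp_pos _).le
        _ = _ := by ring
    have k2 : y ≤ 2 * Real.exp (l ^ 40 / 2 - l / 30) := by
      refine hyu.trans ?_
      apply mul_le_mul_of_nonneg_left _ (by norm_num)
      apply Real.exp_le_exp.mpr
      linarith
    have k3 : (Real.exp (l ^ 40 / 2) / (y / 2) + (Real.sqrt (XX l / W) + Real.sqrt (XX l / W)) + y) *
        Real.exp (l ^ 40 / 2) ≤ 6 * (XX l * Real.exp (-(l / 30))) := by
      calc _ ≤ (6 * Real.exp (l ^ 40 / 2 - l / 30)) * Real.exp (l ^ 40 / 2) := by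
            apply mul_le_mul_of_nonneg_right _ (Real.exp_pos _).le
            linarith
        _ = 6 * (XX l * Real.exp (-(l / 30))) := by
            rw [mul_assoc]
            congr 1
            unfold XX
            rw [← Real.exp_add, ← Real.exp_add]
            congr 1
            ring
    have k30 : 0 ≤ (Real.exp (l ^ 40 / 2) / (y / 2) +
        (Real.sqrt (XX l / W) + Real.sqrt (XX l / W)) + y) * Real.exp (l ^ 40 / 2) := by positivity
    rw [hy2j, hlogX, hsX]
    calc 1 * y ^ (1 / l ^ 40) * (12 * (1 + Real.log y) *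
        (Real.exp (l ^ 40 / 2) / (y / 2) + (Real.sqrt (XX l / W) + Real.sqrt (XX l / W)) + y) *
        (Real.exp (l ^ 40 / 2) * (1 + l ^ 40) ^ 3) * l ^ 40) =
        12 * y ^ (1 / l ^ 40) * ((1 + Real.log y) * (1 + l ^ 40) ^ 3 * l ^ 40) *
          ((Real.exp (l ^ 40 / 2) / (y / 2) + (Real.sqrt (XX l / W) + Real.sqrt (XX l / W)) + y) *
            Real.exp (l ^ 40 / 2)) := by ring
      _ ≤ 12 * 3 * ((1 + l ^ 40) * (1 + l ^ 40) ^ 3 * (1 + l ^ 40)) *
          (6 * (XX l * Real.exp (-(l / 30)))) := by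
          apply mul_le_mul _ k3 k30 (by positivity)
          apply mul_le_mul _ _ (by positivity) (by positivity)
          · linarith
          · gcongr
            linarith
      _ = _ := by ring
  refine (sum_le_sum hblock).trans ?_
  rw [sum_const, nsmul_eq_mul, card_range]
  have h8 : ((⌊l ^ 40⌋₊ + 1 : ℕ) : ℝ) ≤ 1 + l ^ 40 := by
    push_cast
    have := Nat.floor_le (show 0 ≤ l ^ 40 by linarith)
    linarith
  calc ((⌊l ^ 40⌋₊ + 1 : ℕ) : ℝ) * (216 * (1 + l ^ 40) ^ 5 * (XX l * Real.exp (-(l / 30)))) ≤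
      (1 + l ^ 40) * (216 * (1 + l ^ 40) ^ 5 * (XX l * Real.exp (-(l / 30)))) :=
        mul_le_mul_of_nonneg_right h8 (by positivity)
    _ = _ := by ring

theorem t_BV : S_BV := by
  have ev : ∀ᶠ l : ℝ in atTop, SCon l →
      ∑ f ∈ Icc 2 ⌊Real.exp (l ^ 40 / 2 - l / 9)⌋₊, (1 / (Nat.totient f : ℝ)) *
        ∑ ψ ∈ Prim f, ‖psiLog (XX l) f ψ‖ ≤ XX l * Real.exp (-(l / 35)) := by
    filter_upwards [eventually_ge_atTop (2:ℝ), ev_exp 3 0 (1 / 5) (by norm_num),
      ev_exp 288 80 (1 / 20) (by norm_num), ev_exp (648 * 64) 240 (1 / 210) (by norm_num)] with l hl2 h1 h2 h3 hSC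
    have hl1 : 1 ≤ l := by linarith
    have hL1 : 1 ≤ l ^ 40 := one_le_pow₀ hl1
    have hX1 : 1 ≤ XX l := by
      unfold XX; exact Real.one_le_exp (by positivity)
    have hX0 : 0 < XX l := by linarith
    have hlogX := log_XX l
    set F := ⌊Real.exp (l ^ 40 / 2 - l / 9)⌋₊ with hF
    have hFle : (F : ℝ) ≤ Real.exp (l ^ 40 / 2 - l / 9) := Nat.floor_le (Real.exp_pos _).le
    set G := ⌊Real.exp (l / 4)⌋₊ with hG
    have hGle : (G : ℝ) ≤ Real.exp (l / 4) := Nat.floor_le (Real.exp_pos _).le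
    have hSf : ∀ f : ℕ, (1 / (Nat.totient f : ℝ)) * ∑ ψ ∈ Prim f, ‖psiLog (XX l) f ψ‖ =
        Sf 1 (XX l) f := by
      intro f
      unfold Sf
      rw [one_pow]
    rw [sum_congr rfl (fun f _ => hSf f)]
    set S := (Icc 2 F).filter (fun f => G < f) with hS
    have hsplit : ∑ f ∈ Icc 2 F, Sf 1 (XX l) f ≤
        ∑ f ∈ Icc 2 G, Sf 1 (XX l) f + ∑ f ∈ S, Sf 1 (XX l) f := by
      rw [← sum_filter_add_sum_filter_not (Icc 2 F) (fun f => f ≤ G)]
      apply add_le_add
      · apply sum_le_sum_of_subset_of_nonneg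
        · intro f hf
          rw [mem_filter, mem_Icc] at hf
          rw [mem_Icc]
          exact ⟨hf.1.1, hf.2⟩
        · intro f _ _
          exact Sf_nonneg 1 (XX l) zero_le_one f
      · apply le_of_eq
        apply sum_congr _ (fun _ _ => rfl)
        rw [hS]
        apply filter_congr
        intro f _
        exact not_le
    refine hsplit.trans ?_
    -- small part
    have hsmall : ∑ f ∈ Icc 2 G, Sf 1 (XX l) f ≤ XX l * Real.exp (-(l / 4)) := by
      have h8 : ∑ f ∈ Icc 2 G, Sf 1 (XX l) f ≤ 1 * (G : ℝ) ^ 2 * (XX l * Real.exp (-(3 * l / 4))) := by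
        apply small_part 1 1 (XX l) _ le_rfl one_pos (by positivity) G
        · intro f hf
          rw [one_pow, one_mul]
          exact_mod_cast hf
        · intro f hf2 hfG ψ hψ
          apply hSC f hf2
          · calc (f:ℝ) ≤ G := by exact_mod_cast hfG
              _ ≤ Real.exp (l / 4) := hGle
              _ ≤ Real.exp (l / 2) := Real.exp_le_exp.mpr (by linarith)
          · classical
            unfold Prim at hψ
            rw [mem_filter] at hψ
            exact hψ.2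
          · unfold XX
            exact Real.exp_le_exp.mpr (pow_le_pow_right₀ hl1 (by norm_num))
          · unfold XX
            exact Real.exp_le_exp.mpr (pow_le_pow_right₀ hl1 (by norm_num))
      refine h8.trans ?_
      have h9 : (G:ℝ) ^ 2 ≤ Real.exp (l / 2) := by
        calc (G:ℝ) ^ 2 ≤ (Real.exp (l / 4)) ^ 2 := pow_le_pow_left₀ (by positivity) hGle 2
          _ = Real.exp (l / 2) := by
              rw [← Real.exp_nat_mul]; congr 1; push_cast; ring
      calc 1 * (G:ℝ) ^ 2 * (XX l * Real.exp (-(3 * l / 4))) ≤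
          1 * Real.exp (l / 2) * (XX l * Real.exp (-(3 * l / 4))) := by gcongr
        _ = XX l * (Real.exp (l / 2) * Real.exp (-(3 * l / 4))) := by ring
        _ = XX l * Real.exp (-(l / 4)) := by
            rw [← Real.exp_add]; congr 2; ring
    -- large part
    set W := ⌈Real.exp (l / 15)⌉₊ with hW
    have hW1 : Real.exp (l / 15) ≤ W := Nat.le_ceil _
    have hW0 : 1 ≤ Real.exp (l / 15) := Real.one_le_exp (by positivity)
    have hW2 : (W : ℝ) ≤ 2 * Real.exp (l / 15) := by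
      have := Nat.ceil_lt_add_one (Real.exp_pos (l / 15)).le
      linarith
    have hW3 : 1 ≤ W := by
      have : (1:ℝ) ≤ W := hW0.trans hW1
      exact_mod_cast this
    have hSsub : S ⊆ Icc 2 F := filter_subset _ _
    have hlarge : ∑ f ∈ S, Sf 1 (XX l) f ≤
        (∑ f ∈ S, ((1:ℝ) ^ f.primeFactors.card / (Nat.totient f : ℝ)) *
          ∑ _ψ ∈ Prim f, 8 * (W:ℝ) * W * f * Real.log (XX l) ^ 2) +
        ∑ f ∈ S, ((1:ℝ) ^ f.primeFactors.card / (Nat.totient f : ℝ)) *
          ∑ ψ ∈ Prim f, ‖TL (XX l) f ψ (LamII W W)‖ := by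
      rw [← sum_add_distrib]
      apply sum_le_sum
      intro f hf
      have hf2 := hSsub hf
      rw [mem_Icc] at hf2
      rw [← mul_add, ← sum_add_distrib]
      unfold Sf
      apply mul_le_mul_of_nonneg_left _ (by positivity)
      apply sum_le_sum
      intro ψ hψ
      exact norm_psiLog_le (XX l) hX1 W W f hW3 hW3 hf2.1 ψ (prim_ne_one hf2.1 hψ)
    have hI := typeI_total 1 1 (XX l) (1 / l ^ 40) le_rfl one_pos (by positivity) hX1 W W F
      (fun f hf => one_pow_omega 1 _ le_rfl (by positivity) f hf) S hSsub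
    rw [hlogX] at hI hlarge
    have hII := typeII_tot l hl2 W hW3 hW1 S (by
      intro f hf
      rw [hS, mem_filter, mem_Icc] at hf
      refine ⟨hf.1.1, ?_, ?_⟩
      · have : Real.exp (l / 4) < f := Nat.lt_of_floor_lt hf.2
        exact this.le
      · calc (f:ℝ) ≤ F := by exact_mod_cast hf.1.2
          _ ≤ _ := hFle)
    -- type I total small
    have hF2 : (F : ℝ) ^ (2 + 1 / l ^ 40) ≤ 3 * Real.exp (l ^ 40 - 2 * l / 9) := by
      rcases Nat.eq_zero_or_pos F with hF0 | hF0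
      · rw [hF0, Nat.cast_zero, Real.zero_rpow (by positivity)]
        positivity
      have hF0r : (0:ℝ) < F := by exact_mod_cast hF0
      rw [Real.rpow_add hF0r, Real.rpow_two, mul_comm]
      apply mul_le_mul
      · apply rpow_small l F hl1 hF0r.le
        refine hFle.trans ?_
        unfold XX
        apply Real.exp_le_exp.mpr
        linarith
      · calc (F:ℝ) ^ 2 ≤ (Real.exp (l ^ 40 / 2 - l / 9)) ^ 2 := pow_le_pow_left₀ hF0r.le hFle 2
          _ = Real.exp (l ^ 40 - 2 * l / 9) := by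
              rw [← Real.exp_nat_mul]; congr 1; push_cast; ring
      · positivity
      · norm_num
    have hWW : (W:ℝ) * W ≤ 4 * Real.exp (2 * l / 15) := by
      calc (W:ℝ) * W ≤ (2 * Real.exp (l / 15)) * (2 * Real.exp (l / 15)) := by gcongr
        _ = 4 * (Real.exp (l / 15) * Real.exp (l / 15)) := by ring
        _ = 4 * Real.exp (2 * l / 15) := by
            rw [← Real.exp_add]; congr 2; ring
    have hI2 : 8 * 1 * (W:ℝ) * W * (l ^ 40) ^ 2 * (F : ℝ) ^ (2 + 1 / l ^ 40) ≤
        (1 / 3) * (XX l * Real.exp (-(l / 35))) := by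
      calc 8 * 1 * (W:ℝ) * W * (l ^ 40) ^ 2 * (F : ℝ) ^ (2 + 1 / l ^ 40) =
          8 * (W * W) * (l ^ 40) ^ 2 * (F : ℝ) ^ (2 + 1 / l ^ 40) := by ring
        _ ≤ 8 * (4 * Real.exp (2 * l / 15)) * (l ^ 40) ^ 2 * (3 * Real.exp (l ^ 40 - 2 * l / 9)) := by
            gcongr
        _ = (1 / 3) * (288 * l ^ 80) * (Real.exp (2 * l / 15) * Real.exp (l ^ 40 - 2 * l / 9)) := by
            ring
        _ ≤ (1 / 3) * Real.exp (1 / 20 * l) * (Real.exp (2 * l / 15) * Real.exp (l ^ 40 - 2 * l / 9)) := by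
            gcongr
        _ = (1 / 3) * Real.exp (1 / 20 * l + (2 * l / 15 + (l ^ 40 - 2 * l / 9))) := by
            rw [Real.exp_add, Real.exp_add]; ring
        _ ≤ (1 / 3) * Real.exp (l ^ 40 + -(l / 35)) := by
            apply mul_le_mul_of_nonneg_left _ (by norm_num)
            apply Real.exp_le_exp.mpr
            linarith
        _ = _ := by
            unfold XX
            rw [Real.exp_add]
    have hII2 : 216 * (1 + l ^ 40) ^ 6 * (XX l * Real.exp (-(l / 30))) ≤
        (1 / 3) * (XX l * Real.exp (-(l / 35))) := by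
      have hL6 : (1 + l ^ 40) ^ 6 ≤ 64 * l ^ 240 := by
        calc (1 + l ^ 40) ^ 6 ≤ (2 * l ^ 40) ^ 6 := pow_le_pow_left₀ (by linarith) (by linarith) 6
          _ = 64 * l ^ 240 := by ring
      calc 216 * (1 + l ^ 40) ^ 6 * (XX l * Real.exp (-(l / 30))) ≤
          216 * (64 * l ^ 240) * (XX l * Real.exp (-(l / 30))) := by gcongr
        _ = (1 / 3) * (648 * 64 * l ^ 240) * (XX l * Real.exp (-(l / 30))) := by ring
        _ ≤ (1 / 3) * Real.exp (1 / 210 * l) * (XX l * Real.exp (-(l / 30))) := by gcongr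
        _ = (1 / 3) * (XX l * (Real.exp (1 / 210 * l) * Real.exp (-(l / 30)))) := by ring
        _ = (1 / 3) * (XX l * Real.exp (-(l / 35))) := by
            rw [← Real.exp_add]
            congr 3
            ring
    have hs2 : XX l * Real.exp (-(l / 4)) ≤ (1 / 3) * (XX l * Real.exp (-(l / 35))) := by
      have e1 : 3 * Real.exp (-(l / 4)) ≤ Real.exp (-(l / 35)) := by
        calc 3 * Real.exp (-(l / 4)) = 3 * l ^ 0 * Real.exp (-(l / 4)) := by rw [pow_zero]; ring
          _ ≤ Real.exp (1 / 5 * l) * Real.exp (-(l / 4)) := by gcongr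
          _ = Real.exp (1 / 5 * l + -(l / 4)) := by rw [Real.exp_add]
          _ ≤ _ := Real.exp_le_exp.mpr (by linarith)
      nlinarith
    linarith
  rw [eventually_atTop] at ev
  exact ev

end Pool.Agent.N478.SP
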